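import Mathlib

/-!
# The rank of a matrix does not change under extension of the field
-/

namespace Pool.Agent.TH125

open Matrix

theorem rank_map_hom {F K : Type*} [Field F] [Field K] {m : Type*} [Fintype m] [DecidableEq m]
    (φ : F →+* K) (M : Matrix m m F) : (M.map φ).rank = M.rank := by
  classical
  obtain ⟨V, U, e, hV, hU, h⟩ := Matrix.exists_rank_normal_form M
  have h1 : V.map φ * M.map φ * U.map φ =
      ((fromBlocks 1 0 0 0 : Matrix (Fin M.rank ⊕ Fin (Fintype.card m - M.rank))
        (Fin M.rank ⊕ Fin (Fintype.card m - M.rank)) K)).submatrix e e := by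
    rw [← Matrix.map_mul, ← Matrix.map_mul, h]
    ext i j
    simp only [Matrix.map_apply, Matrix.submatrix_apply]
    rcases e i with a | a <;> rcases e j with b | b <;>
      simp [Matrix.one_apply, apply_ite φ]
  have hV' : IsUnit (V.map φ).det := by
    have := ((isUnit_iff_isUnit_det _).1 hV).map φ
    rwa [RingHom.map_det, RingHom.mapMatrix_apply] at this
  have hU' : IsUnit (U.map φ).det := by
    have := ((isUnit_iff_isUnit_det _).1 hU).map φ
    rwa [RingHom.map_det, RingHom.mapMatrix_apply] at this
  have h2 : (V.map φ * M.map φ * U.map φ).rank = (M.map φ).rank := by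
    rw [rank_mul_eq_left_of_isUnit_det _ _ hU', rank_mul_eq_right_of_isUnit_det _ _ hV']
  rw [← h2, h1, Matrix.rank_submatrix]
  have h3 : (fromBlocks 1 0 0 0 : Matrix (Fin M.rank ⊕ Fin (Fintype.card m - M.rank))
        (Fin M.rank ⊕ Fin (Fintype.card m - M.rank)) K) =
      Matrix.diagonal (Sum.elim (fun _ => 1) (fun _ => 0)) := by
    ext i j
    rcases i with a | a <;> rcases j with b | b <;> simp [Matrix.one_apply, Matrix.diagonal_apply]
  rw [h3, Matrix.rank_diagonal]
  have h4 : Fintype.card {i : Fin M.rank ⊕ Fin (Fintype.card m - M.rank) //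
      (Sum.elim (fun _ => (1 : K)) (fun _ => 0)) i ≠ 0} = Fintype.card (Fin M.rank) := by
    symm
    refine Fintype.card_congr (Equiv.ofBijective
      (fun a => ⟨Sum.inl a, by simp⟩) ⟨fun a b hab => ?_, ?_⟩)
    · exact Sum.inl_injective (congrArg Subtype.val hab)
    · rintro ⟨a | b, hx⟩
      · exact ⟨a, rfl⟩
      · simp at hx
  rw [h4, Fintype.card_fin]

end Pool.Agent.TH125
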