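import Mathlib
import Pool.Agent.W437.HR.Final

/-!
# Elements of rank two with square zero in the Hodge Lie algebra
-/

set_option linter.unusedSectionVars false

namespace Pool.Agent.TH125

open Matrix Module Pool.Agent.H204R3.CM Pool.Agent.H194R3.CM Pool.Agent.W437.HC
  Pool.Agent.W437.HD Pool.Agent.W437.HP Pool.Agent.W437.HQ Pool.Agent.W437.HR

variable {g : ℕ} {Z : Matrix (Fin g) (Fin g) ℂ}

/-- The adjoint vector. -/
noncomputable def jv (Z : Matrix (Fin g) (Fin g) ℂ) (v : Fin g ⊕ Fin g → ℂ) :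
    Fin g ⊕ Fin g → ℂ := cm (JR Z) *ᵥ (fun i => starRingEnd ℂ (v i))

/-- The hermitian form. -/
theorem ww_jv (v w : Fin g ⊕ Fin g → ℂ) :
    ww (Om g ℂ) v (jv Z w) = v ⬝ᵥ (cm (Om g ℝ * JR Z) *ᵥ (fun i => starRingEnd ℂ (w i))) := by
  unfold ww jv
  rw [cm_mul, cm_Om, mulVec_mulVec]

theorem ww_jv_symm (hZ : Zᵀ = Z) (v w : Fin g ⊕ Fin g → ℂ) :
    ww (Om g ℂ) w (jv Z v) = starRingEnd ℂ (ww (Om g ℂ) v (jv Z w)) := by
  rw [ww_jv, ww_jv]
  set H := Om g ℝ * JR Z with hH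
  have hHs : Hᵀ = H := OmJ_symm hZ
  have hs : ∀ i j, H i j = H j i := fun i j => by
    conv_lhs => rw [← hHs]
    rfl
  simp only [dotProduct, mulVec, map_sum, map_mul, Finset.mul_sum, cm, Matrix.map_apply,
    Complex.conj_conj, Complex.conj_ofReal]
  rw [Finset.sum_comm]
  refine Finset.sum_congr rfl fun i _ => Finset.sum_congr rfl fun j _ => ?_
  rw [hs j i]
  ring

theorem ww_jv_ne_zero (hZ : Zᵀ = Z) (hpos : (imM Z).PosDef) {v : Fin g ⊕ Fin g → ℂ}
    (hv : v ≠ 0) : ww (Om g ℂ) v (jv Z v) ≠ 0 := by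
  rw [ww_jv]
  set H := Om g ℝ * JR Z with hH
  have hHpos := OmJ_posDef hZ hpos
  set x : Fin g ⊕ Fin g → ℝ := fun i => (v i).re with hx
  set y : Fin g ⊕ Fin g → ℝ := fun i => (v i).im with hy
  have h8 : (v ⬝ᵥ (cm H *ᵥ fun i => starRingEnd ℂ (v i))).re =
      x ⬝ᵥ (H *ᵥ x) + y ⬝ᵥ (H *ᵥ y) := by
    simp only [dotProduct, mulVec, Complex.re_sum, Complex.mul_re, Complex.im_sum, Complex.mul_im,
      cm, Matrix.map_apply, Complex.ofReal_re, Complex.ofReal_im, zero_mul, sub_zero, add_zero,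
      Complex.conj_re, Complex.conj_im, hx, hy]
    rw [← Finset.sum_add_distrib]
    refine Finset.sum_congr rfl fun i _ => ?_
    have e1 : ∑ k, H i k * -(v k).im = -∑ k, H i k * (v k).im := by
      rw [← Finset.sum_neg_distrib]
      exact Finset.sum_congr rfl fun k _ => by ring
    rw [e1]
    ring
  intro h9
  rw [h9, Complex.zero_re] at h8
  have hnn : ∀ z : Fin g ⊕ Fin g → ℝ, 0 ≤ z ⬝ᵥ (H *ᵥ z) := by
    intro z
    by_cases hz : z = 0
    · rw [hz]
      simp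
    · have := hHpos.dotProduct_mulVec_pos hz
      rw [star_trivial] at this
      exact this.le
  apply hv
  have hx0 : x = 0 := by
    by_contra hne
    have := hHpos.dotProduct_mulVec_pos hne
    rw [star_trivial] at this
    have h7 := hnn y
    linarith
  have hy0 : y = 0 := by
    by_contra hne
    have := hHpos.dotProduct_mulVec_pos hne
    rw [star_trivial] at this
    have h7 := hnn x
    linarith
  funext i
  exact Complex.ext (congrFun hx0 i) (congrFun hy0 i)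

/-- The product of the adjoint vectors is in the Lie algebra. -/
theorem SS_jv (hZ : Zᵀ = Z) (hY : IsUnit (imM Z).det) {v w : Fin g ⊕ Fin g → ℂ}
    (h : SS (Om g ℂ) v w ∈ lieM (DZ Z) ℂ) : SS (Om g ℂ) (jv Z v) (jv Z w) ∈ lieM (DZ Z) ℂ := by
  have h3 : SS (Om g ℂ) (fun i => starRingEnd ℂ (v i)) (fun i => starRingEnd ℂ (w i)) ∈
      lieM (DZ Z) ℂ := by
    rw [← SS_map (Om_aut (starRingEnd ℂ))]
    exact map_mem_aut h _
  have hJ2 : cm (JR Z) * cm (JR Z) = -1 := by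
    rw [← cm_mul, JR_sq hY, cm_neg, cm_one]
  have h4 := lieM_conj (DZ Z) h3 (cmJ_mem Z) hJ2
  have hsp := sp_C hZ _ (cmJ_mem Z)
  have h5 : cm (JR Z) * SS (Om g ℂ) (fun i => starRingEnd ℂ (v i))
      (fun i => starRingEnd ℂ (w i)) * cm (JR Z) = -SS (Om g ℂ) (jv Z v) (jv Z w) := by
    obtain ⟨vb, hvb⟩ : ∃ vb : Fin g ⊕ Fin g → ℂ, vb = fun i => starRingEnd ℂ (v i) := ⟨_, rfl⟩
    obtain ⟨wb, hwb⟩ : ∃ wb : Fin g ⊕ Fin g → ℂ, wb = fun i => starRingEnd ℂ (w i) := ⟨_, rfl⟩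
    have e1 : Om g ℂ * cm (JR Z) = -((cm (JR Z))ᵀ * Om g ℂ) := eq_neg_of_add_eq_zero_right hsp
    have e2 : SS (Om g ℂ) vb wb * cm (JR Z) =
        -((vecMulVec vb wb + vecMulVec wb vb) * (cm (JR Z))ᵀ * Om g ℂ) := by
      unfold SS
      rw [mul_assoc (vecMulVec vb wb + vecMulVec wb vb) (Om g ℂ), e1, mul_neg, ← mul_assoc]
    unfold jv
    rw [← hvb, ← hwb, mul_assoc, e2, mul_neg]
    unfold SS
    rw [← mul_assoc, ← mul_assoc]
    congr 2
    rw [mul_add, add_mul, mul_vecMulVec, vecMulVec_mul, vecMul_transpose, mul_vecMulVec,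
      vecMulVec_mul, vecMul_transpose]
  rw [h5] at h4
  have := Submodule.neg_mem _ h4
  rwa [neg_neg] at this

theorem ww_jv_jv (hZ : Zᵀ = Z) (hY : IsUnit (imM Z).det) (v w : Fin g ⊕ Fin g → ℂ) :
    ww (Om g ℂ) (jv Z v) (jv Z w) = starRingEnd ℂ (ww (Om g ℂ) v w) := by
  have hsp := sp_C hZ _ (cmJ_mem Z)
  have hJ2 : cm (JR Z) * cm (JR Z) = -1 := by
    rw [← cm_mul, JR_sq hY, cm_neg, cm_one]
  have e1 : (cm (JR Z))ᵀ * Om g ℂ * cm (JR Z) = Om g ℂ := by
    rw [eq_neg_of_add_eq_zero_left hsp, neg_mul, mul_assoc, hJ2, mul_neg, mul_one, neg_neg]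
  rw [ww_map (Om_aut (starRingEnd ℂ))]
  unfold ww jv
  rw [mulVec_mulVec, ← vecMul_transpose, ← dotProduct_mulVec, mulVec_mulVec, ← mul_assoc, e1]

/-- The frame attached to a product of two orthogonal vectors in the Lie algebra. -/
theorem frame_of_prod (hZ : Zᵀ = Z) (hpos : (imM Z).PosDef) (hm : LieS (wwL (Om g ℂ)) (mq Z))
    {v w : Fin g ⊕ Fin g → ℂ} (h3 : ww (Om g ℂ) v w = 0)
    (hli : ∀ a b : ℂ, a • v + b • w = 0 → a = 0 ∧ b = 0)
    (hX : SS (Om g ℂ) v w ∈ lieM (DZ Z) ℂ) :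
    ∃ v' w', Frame (wwL (Om g ℂ)) (mq Z) v w v' w' := by
  have hY : IsUnit (imM Z).det := hpos.isUnit.map Matrix.detMonoidHom
  have hv0 : v ≠ 0 := by
    rintro rfl
    exact one_ne_zero (hli 1 0 (by simp)).1
  have hw0 : w ≠ 0 := by
    rintro rfl
    exact one_ne_zero (hli 0 1 (by simp)).2
  have h1 := ww_jv_ne_zero hZ hpos hv0
  have h2 := ww_jv_ne_zero hZ hpos hw0
  have h4 : ww (Om g ℂ) (jv Z v) (jv Z w) = 0 := by rw [ww_jv_jv hZ hY, h3, map_zero]
  have hXb := SS_jv hZ hY hX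
  have hsy := ww_jv_symm hZ v w
  obtain ⟨vb, hvb⟩ : ∃ vb, vb = jv Z v := ⟨_, rfl⟩
  obtain ⟨wb, hwb⟩ : ∃ wb, wb = jv Z w := ⟨_, rfl⟩
  rw [← hvb] at h1 h4 hXb hsy
  rw [← hwb] at h2 h4 hXb hsy
  have hXm : EE (wwL (Om g ℂ)) v w ∈ mq Z := EE_mem.2 hX
  have hXbm : EE (wwL (Om g ℂ)) vb wb ∈ mq Z := EE_mem.2 hXb
  have h5 := pencil_gen hm hXm hli (sandwich_gen hm hXm h3 hXbm)
  have h6 : ww (Om g ℂ) v wb = 0 := by
    have h7 := h5.2
    rw [EE_apply, map_add, map_smul, map_smul] at h7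
    simp only [wwL_apply, smul_eq_mul] at h7
    rw [ww_anti (Om_transpose ℂ) wb v, ww_anti (Om_transpose ℂ) vb v] at h7
    have h8 : ww (Om g ℂ) v wb * ww (Om g ℂ) v vb = 0 := by linear_combination (-1 / 2 : ℂ) * h7
    exact (mul_eq_zero.1 h8).resolve_right h1
  have h7 : ww (Om g ℂ) w vb = 0 := by
    rw [hsy, h6, map_zero]
  refine ⟨(ww (Om g ℂ) v vb)⁻¹ • vb, (ww (Om g ℂ) w wb)⁻¹ • wb, ?_⟩
  refine ⟨h3, ?_, ?_, ?_, ?_, ?_, hXm, ?_⟩
  · rw [map_smul, map_smul, LinearMap.smul_apply, wwL_apply, h4, smul_zero, smul_zero]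
  · rw [map_smul, wwL_apply, smul_eq_mul, inv_mul_cancel₀ h1]
  · rw [map_smul, wwL_apply, smul_eq_mul, inv_mul_cancel₀ h2]
  · rw [map_smul, wwL_apply, h6, smul_zero]
  · rw [map_smul, wwL_apply, h7, smul_zero]
  · rw [EE_smul_left, EE_smul_right]
    exact Submodule.smul_mem _ _ (Submodule.smul_mem _ _ hXbm)

/-- A matrix of rank two with square zero in the Lie algebra is a product of two orthogonal
vectors. -/
theorem exists_pair (hZ : Zᵀ = Z) {X : Matrix (Fin g ⊕ Fin g) (Fin g ⊕ Fin g) ℂ}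
    (hX : X ∈ lieM (DZ Z) ℂ) (hX2 : X * X = 0) (hr : X.rank = 2) :
    ∃ v w : Fin g ⊕ Fin g → ℂ, SS (Om g ℂ) v w = X ∧
      (∀ a b : ℂ, a • v + b • w = 0 → a = 0 ∧ b = 0) ∧ ww (Om g ℂ) v w = 0 := by
  obtain ⟨G, hG, hXG, hrk⟩ := symm_of_sp (sp_C hZ _ hX)
  obtain ⟨v, w, hvw⟩ := exists_prod hG (hrk.trans hr)
  have hSS : SS (Om g ℂ) v w = X := by
    unfold SS
    rw [← hvw, ← hXG]
  have hli : ∀ a b : ℂ, a • v + b • w = 0 → a = 0 ∧ b = 0 := by
    intro a b hab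
    by_contra hne
    -- then the rank is at most one
    have key : ∀ (x y : Fin g ⊕ Fin g → ℂ) (c : ℂ), x = c • y →
        (vecMulVec x y + vecMulVec y x).rank ≤ 1 := by
      rintro x y c rfl
      have h1 : vecMulVec (c • y) y + vecMulVec y (c • y) = vecMulVec ((2 * c) • y) y := by
        rw [smul_vecMulVec, vecMulVec_smul, smul_vecMulVec, ← add_smul, two_mul]
      rw [h1]
      exact rank_vecMulVec_le _ _
    have hGr : G.rank = 2 := hrk.trans hr
    by_cases ha : a = 0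
    · have hb : b ≠ 0 := fun hb => hne ⟨ha, hb⟩
      have h1 : w = (0 : ℂ) • v := by
        rw [ha, zero_smul, zero_add] at hab
        rw [zero_smul]
        exact (smul_eq_zero.1 hab).resolve_left hb
      have h2 := key w v 0 h1
      rw [add_comm, ← hvw] at h2
      omega
    · have h1 : v = (-(b / a)) • w := by
        have h4 := congrArg (fun x => a⁻¹ • x) hab
        simp only [smul_add, smul_smul, inv_mul_cancel₀ ha, one_smul, smul_zero] at h4
        rw [eq_neg_of_add_eq_zero_left h4, neg_smul]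
        congr 2
        ring
      have h2 := key v w _ h1
      rw [← hvw] at h2
      omega
  refine ⟨v, w, hSS, hli, ?_⟩
  -- isotropic
  have h1 : ∀ u, X *ᵥ (X *ᵥ u) = 0 := by
    intro u
    rw [mulVec_mulVec, hX2, zero_mulVec]
  have h2 : ∀ u, ww (Om g ℂ) w (X *ᵥ u) = 0 ∧ ww (Om g ℂ) v (X *ᵥ u) = 0 := by
    intro u
    have h3 := h1 u
    rw [← hSS] at h3 ⊢
    rw [SS_vec (Om := Om g ℂ) v w (SS (Om g ℂ) v w *ᵥ u)] at h3
    exact hli _ _ h3
  have hO : ∀ x : Fin g ⊕ Fin g → ℂ, x ≠ 0 → ∃ y, ww (Om g ℂ) x y ≠ 0 := by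
    intro x hx
    by_contra hcon
    push Not at hcon
    apply hx
    have h3 : x ᵥ* Om g ℂ = 0 := by
      funext i
      have h4 := hcon (Pi.single i 1)
      unfold ww at h4
      rw [dotProduct_mulVec, dotProduct_single, mul_one] at h4
      exact h4
    have h4 : (x ᵥ* Om g ℂ) ᵥ* Om g ℂ = -x := by
      rw [vecMul_vecMul, Om_sq, vecMul_neg, vecMul_one]
    rw [h3, zero_vecMul] at h4
    exact neg_eq_zero.1 h4.symm
  have hw0 : w ≠ 0 := by
    rintro rfl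
    exact one_ne_zero (hli 0 1 (by simp)).2
  obtain ⟨u, hu⟩ := hO w hw0
  have h3 := (h2 u).1
  rw [← hSS, SS_vec, ww_add_right, ww_smul_right, ww_smul_right,
    ww_self (Om_transpose ℂ), mul_zero, add_zero] at h3
  rw [ww_anti (Om_transpose ℂ), (mul_eq_zero.1 h3).resolve_left hu, neg_zero]

/-- **The rank two theorem**: if the centre of the endomorphism algebra is totally real and the
Lie algebra contains a product of two independent orthogonal vectors then the space decomposes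
into pieces with the full symplectic Lie algebra. -/
theorem hasPcs_of_pair (hZ : Zᵀ = Z) (hpos : (imM Z).PosDef) (hs : IsSimpleAV Z)
    (hr : RealCentre Z) {v w : Fin g ⊕ Fin g → ℂ} (hX : SS (Om g ℂ) v w ∈ lieM (DZ Z) ℂ)
    (hli : ∀ a b : ℂ, a • v + b • w = 0 → a = 0 ∧ b = 0) (hvw : ww (Om g ℂ) v w = 0) :
    HasPcs (DZ Z) := by
  have hY : IsUnit (imM Z).det := hpos.isUnit.map Matrix.detMonoidHom
  by_cases hsq : ∃ v : Fin g ⊕ Fin g → ℂ, v ≠ 0 ∧ SS (Om g ℂ) v v ∈ lieM (DZ Z) ℂ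
  · obtain ⟨v, hv, h⟩ := hsq
    exact hasPcs_of_top (Om_transpose ℂ) (Om_unit ℂ) (sp_C hZ)
      (UU_eq_top hZ hY hs ⟨v, good_of_sq_gen hZ hpos hv h⟩)
  push Not at hsq
  have hm : LieN (wwL (Om g ℂ)) (mq Z) := lieN hZ hpos fun x hx => by
    by_contra h0
    exact hsq x h0 hx
  obtain ⟨v', w', F⟩ := frame_of_prod hZ hpos hm.toLieS hvw hli hX
  obtain ⟨k, ix, hk, horth, htop, hall⟩ := decomp hm (ι := ℂ ≃+* ℂ)
    (fun σ => W437.HQ.cj σ v) (fun σ => W437.HQ.cj σ w) (fun σ => W437.HQ.cj σ v')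
    (fun σ => W437.HQ.cj σ w')
    (fun σ => F.cj σ) (fun σ => finrank_cj σ) (sup_cj hpos hs hm F)
  have hnb := fun q => not_bad hZ hpos hr hm (F.cj (ix q))
  have h0 : ∀ q b, GP (wwL (Om g ℂ)) (mq Z) (W437.HQ.cj (ix q) v) (W437.HQ.cj (ix q) w)
      (W437.HQ.cj (ix q) v') (W437.HQ.cj (ix q) w') 0 b → b = 0 := by
    intro q b hb
    by_contra hb0
    exact hnb q (Or.inl ⟨b, hb, hb0⟩)
  refine hasPcs_of_frames hm (fun q => W437.HQ.cj (ix q) v) (fun q => W437.HQ.cj (ix q) w)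
    (fun q => W437.HQ.cj (ix q) v') (fun q => W437.HQ.cj (ix q) w') (fun q => F.cj (ix q)) horth
    htop h0 (fun q => ((F.cj (ix q)).sp_conds hm (h0 q)).1)
    (fun q => ((F.cj (ix q)).sp_conds hm (h0 q)).2) fun q Y hY => ?_
  by_contra hne
  exact hnb q (Or.inr ⟨Y, hY, hne⟩)

/-- The case of two vectors which are not orthogonal. -/
theorem hasPcs_of_pair' (hZ : Zᵀ = Z) (hpos : (imM Z).PosDef) (hs : IsSimpleAV Z)
    (hr : RealCentre Z) {v w : Fin g ⊕ Fin g → ℂ} (hX : SS (Om g ℂ) v w ∈ lieM (DZ Z) ℂ)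
    (hvw : ww (Om g ℂ) v w ≠ 0) : HasPcs (DZ Z) := by
  have hY : IsUnit (imM Z).det := hpos.isUnit.map Matrix.detMonoidHom
  by_cases hsq : ∃ v : Fin g ⊕ Fin g → ℂ, v ≠ 0 ∧ SS (Om g ℂ) v v ∈ lieM (DZ Z) ℂ
  · obtain ⟨v, hv, h⟩ := hsq
    exact hasPcs_of_top (Om_transpose ℂ) (Om_unit ℂ) (sp_C hZ)
      (UU_eq_top hZ hY hs ⟨v, good_of_sq_gen hZ hpos hv h⟩)
  push Not at hsq
  have hm : LieN (wwL (Om g ℂ)) (mq Z) := lieN hZ hpos fun x hx => by
    by_contra h0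
    exact hsq x h0 hx
  have hOT := Om_transpose (g := g) ℂ
  have hli : ∀ a b : ℂ, a • v + b • w = 0 → a = 0 ∧ b = 0 := by
    intro a b hab
    have h1 : ww (Om g ℂ) v (a • v + b • w) = 0 := by
      rw [hab]
      unfold ww
      rw [mulVec_zero, dotProduct_zero]
    have h2 : ww (Om g ℂ) w (a • v + b • w) = 0 := by
      rw [hab]
      unfold ww
      rw [mulVec_zero, dotProduct_zero]
    rw [ww_add_right, ww_smul_right, ww_smul_right, ww_self hOT, mul_zero, zero_add] at h1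
    rw [ww_add_right, ww_smul_right, ww_smul_right, ww_self hOT, mul_zero, add_zero,
      ww_anti hOT w v] at h2
    refine ⟨(mul_eq_zero.1 h2).resolve_right (neg_ne_zero.2 hvw),
      (mul_eq_zero.1 h1).resolve_right hvw⟩
  obtain ⟨l, hl⟩ : ∃ l, l = ww (Om g ℂ) w v := ⟨_, rfl⟩
  have hl' : ww (Om g ℂ) v w = -l := by rw [hl, ww_anti hOT]
  have hl0 : l ≠ 0 := by
    intro h
    apply hvw
    rw [hl', h, neg_zero]
  by_contra hno
  -- all elements of the Lie algebra have the two vectors as eigenvectors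
  have key : ∀ Y ∈ lieM (DZ Z) ℂ, (∃ a : ℂ, Y *ᵥ v = a • v) ∧ ∃ d : ℂ, Y *ᵥ w = d • w := by
    intro Y hYm
    obtain ⟨a, ha⟩ : ∃ a, a = l⁻¹ * ww (Om g ℂ) w (Y *ᵥ v) := ⟨_, rfl⟩
    obtain ⟨b, hb⟩ : ∃ b, b = -(l⁻¹ * ww (Om g ℂ) v (Y *ᵥ v)) := ⟨_, rfl⟩
    obtain ⟨c, hc⟩ : ∃ c, c = l⁻¹ * ww (Om g ℂ) w (Y *ᵥ w) := ⟨_, rfl⟩
    obtain ⟨d, hd⟩ : ∃ d, d = -(l⁻¹ * ww (Om g ℂ) v (Y *ᵥ w)) := ⟨_, rfl⟩
    obtain ⟨s, hs'⟩ : ∃ s, s = Y *ᵥ v - a • v - b • w := ⟨_, rfl⟩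
    obtain ⟨t, ht'⟩ : ∃ t, t = Y *ᵥ w - c • v - d • w := ⟨_, rfl⟩
    have hYv : Y *ᵥ v = a • v + b • w + s := by rw [hs']; abel
    have hYw : Y *ᵥ w = c • v + d • w + t := by rw [ht']; abel
    have hs1 : ww (Om g ℂ) w s = 0 := by
      have h1 := congrArg (ww (Om g ℂ) w) hYv
      rw [ww_add_right, ww_add_right, ww_smul_right, ww_smul_right, ww_self hOT, ← hl, mul_zero,
        add_zero, ha] at h1
      have h2 : l⁻¹ * ww (Om g ℂ) w (Y *ᵥ v) * l = ww (Om g ℂ) w (Y *ᵥ v) := by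
        field_simp
      rw [h2] at h1
      linear_combination -h1
    have hs2 : ww (Om g ℂ) v s = 0 := by
      have h1 := congrArg (ww (Om g ℂ) v) hYv
      rw [ww_add_right, ww_add_right, ww_smul_right, ww_smul_right, ww_self hOT, hl', mul_zero,
        zero_add, hb] at h1
      have h2 : -(l⁻¹ * ww (Om g ℂ) v (Y *ᵥ v)) * -l = ww (Om g ℂ) v (Y *ᵥ v) := by
        field_simp
      rw [h2] at h1
      linear_combination -h1
    have ht1 : ww (Om g ℂ) w t = 0 := by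
      have h1 := congrArg (ww (Om g ℂ) w) hYw
      rw [ww_add_right, ww_add_right, ww_smul_right, ww_smul_right, ww_self hOT, ← hl, mul_zero,
        add_zero, hc] at h1
      have h2 : l⁻¹ * ww (Om g ℂ) w (Y *ᵥ w) * l = ww (Om g ℂ) w (Y *ᵥ w) := by
        field_simp
      rw [h2] at h1
      linear_combination -h1
    have ht2 : ww (Om g ℂ) v t = 0 := by
      have h1 := congrArg (ww (Om g ℂ) v) hYw
      rw [ww_add_right, ww_add_right, ww_smul_right, ww_smul_right, ww_self hOT, hl', mul_zero,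
        zero_add, hd] at h1
      have h2 : -(l⁻¹ * ww (Om g ℂ) v (Y *ᵥ w)) * -l = ww (Om g ℂ) v (Y *ᵥ w) := by
        field_simp
      rw [h2] at h1
      linear_combination -h1
    have hsp := sp_C hZ
    have hXv : SS (Om g ℂ) v w *ᵥ v = l • v := by
      rw [SS_vec, ← hl, ww_self hOT, zero_smul, add_zero]
    have hXw : SS (Om g ℂ) v w *ᵥ w = (-l) • w := by
      rw [SS_vec, hl', ww_self hOT, zero_smul, zero_add]
    have hXs : SS (Om g ℂ) v w *ᵥ s = 0 := by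
      rw [SS_vec, hs1, hs2, zero_smul, zero_smul, add_zero]
    have hXt : SS (Om g ℂ) v w *ᵥ t = 0 := by
      rw [SS_vec, ht1, ht2, zero_smul, zero_smul, add_zero]
    obtain ⟨Sv, hSv⟩ : ∃ Sv, Sv = SS (Om g ℂ) v v := ⟨_, rfl⟩
    obtain ⟨Sw, hSw⟩ : ∃ Sw, Sw = SS (Om g ℂ) w w := ⟨_, rfl⟩
    obtain ⟨Ss, hSs⟩ : ∃ Ss, Ss = SS (Om g ℂ) s w := ⟨_, rfl⟩
    obtain ⟨St, hSt⟩ : ∃ St, St = SS (Om g ℂ) v t := ⟨_, rfl⟩
    have hT2 : b • Sw + c • Sv + (Ss + St) ∈ lieM (DZ Z) ℂ := by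
      have h1 := SS_mem hsp hYm hX
      rw [hYv, hYw] at h1
      have h2 : SS (Om g ℂ) (a • v + b • w + s) w + SS (Om g ℂ) v (c • v + d • w + t) =
          (b • Sw + c • Sv + (Ss + St)) + (a + d) • SS (Om g ℂ) v w := by
        rw [hSv, hSw, hSs, hSt]
        simp only [SS_add_left, SS_add_right, SS_smul_left, SS_smul_right]
        module
      rw [h2] at h1
      have h3 := Submodule.sub_mem _ h1 (Submodule.smul_mem _ (a + d) hX)
      rwa [add_sub_cancel_right] at h3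
    -- the commutators with the product
    have hb1 : ∀ x y : Fin g ⊕ Fin g → ℂ, SS (Om g ℂ) v w * SS (Om g ℂ) x y -
        SS (Om g ℂ) x y * SS (Om g ℂ) v w = SS (Om g ℂ) (SS (Om g ℂ) v w *ᵥ x) y +
          SS (Om g ℂ) x (SS (Om g ℂ) v w *ᵥ y) := fun x y => SS_bracket (hsp _ hX) x y
    have hbv : SS (Om g ℂ) v w * Sv - Sv * SS (Om g ℂ) v w = (2 * l) • Sv := by
      rw [hSv, hb1, hXv, SS_smul_left, SS_smul_right, ← add_smul, two_mul]
    have hbw : SS (Om g ℂ) v w * Sw - Sw * SS (Om g ℂ) v w = (-(2 * l)) • Sw := by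
      rw [hSw, hb1, hXw, SS_smul_left, SS_smul_right, ← add_smul]
      congr 1
      ring
    have hbs : SS (Om g ℂ) v w * Ss - Ss * SS (Om g ℂ) v w = (-l) • Ss := by
      rw [hSs, hb1, hXw, hXs, SS_zero_left, zero_add, SS_smul_right]
    have hbt : SS (Om g ℂ) v w * St - St * SS (Om g ℂ) v w = l • St := by
      rw [hSt, hb1, hXv, hXt, SS_comm v 0, SS_zero_left, add_zero, SS_smul_left]
    obtain ⟨P, hP⟩ : ∃ P, P = SS (Om g ℂ) v w := ⟨_, rfl⟩
    rw [← hP] at hbv hbw hbs hbt hX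
    have step : ∀ p q r u : ℂ, p • Sw + q • Sv + (r • Ss + u • St) ∈ lieM (DZ Z) ℂ →
        ((-2) * p) • Sw + (2 * q) • Sv + ((-r) • Ss + u • St) ∈ lieM (DZ Z) ℂ := by
      intro p q r u h
      have h1 := lieM_bracket _ hX h
      have h2 : P * (p • Sw + q • Sv + (r • Ss + u • St)) -
          (p • Sw + q • Sv + (r • Ss + u • St)) * P =
          l • (((-2) * p) • Sw + (2 * q) • Sv + ((-r) • Ss + u • St)) := by
        have h3 : P * (p • Sw + q • Sv + (r • Ss + u • St)) -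
            (p • Sw + q • Sv + (r • Ss + u • St)) * P =
            p • (P * Sw - Sw * P) + q • (P * Sv - Sv * P) + (r • (P * Ss - Ss * P) +
              u • (P * St - St * P)) := by
          simp only [mul_add, add_mul, mul_smul_comm, smul_mul_assoc, smul_sub]
          abel
        rw [h3, hbv, hbw, hbs, hbt]
        module
      rw [h2] at h1
      exact mem_of_smul_mem hl0 h1
    have e1 : b • Sw + c • Sv + ((1 : ℂ) • Ss + (1 : ℂ) • St) ∈ lieM (DZ Z) ℂ := by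
      rw [one_smul, one_smul]
      exact hT2
    have e2 := step _ _ _ _ e1
    have e3 := step _ _ _ _ e2
    have e4 : (3 * c) • Sv + (3 * b) • Sw ∈ lieM (DZ Z) ℂ := by
      have h1 := Submodule.sub_mem _ e3 e1
      have h2 : ((-2) * ((-2) * b)) • Sw + (2 * (2 * c)) • Sv + ((- -(1 : ℂ)) • Ss +
          (1 : ℂ) • St) - (b • Sw + c • Sv + ((1 : ℂ) • Ss + (1 : ℂ) • St)) =
          (3 * c) • Sv + (3 * b) • Sw := by module
      rwa [h2] at h1
    have hXm : EE (wwL (Om g ℂ)) v w ∈ mq Z := EE_mem.2 (by rw [← hP]; exact hX)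
    have e5 : (3 * c) • EE (wwL (Om g ℂ)) v v + (3 * b) • EE (wwL (Om g ℂ)) w w ∈ mq Z := by
      rw [EE_eq, EE_eq, ← map_smul, ← map_smul, ← map_add, toLin_mem_mq, ← hSv, ← hSw]
      exact e4
    obtain ⟨hc3, hb3⟩ := pencil_gen hm.toLieS hXm hli e5
    have hc0 : c = 0 := (mul_eq_zero.1 hc3).resolve_left (by norm_num)
    have hb0 : b = 0 := (mul_eq_zero.1 hb3).resolve_left (by norm_num)
    rw [hb0, hc0] at e1 e2
    have e6 : St ∈ lieM (DZ Z) ℂ := by
      have h1 := Submodule.add_mem _ e1 e2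
      have h2 : (0 : ℂ) • Sw + (0 : ℂ) • Sv + ((1 : ℂ) • Ss + (1 : ℂ) • St) +
          (((-2) * (0 : ℂ)) • Sw + (2 * (0 : ℂ)) • Sv + ((-(1 : ℂ)) • Ss + (1 : ℂ) • St)) =
          (2 : ℂ) • St := by module
      rw [h2] at h1
      exact mem_of_smul_mem two_ne_zero h1
    have e7 : Ss ∈ lieM (DZ Z) ℂ := by
      have h1 := Submodule.sub_mem _ e1 e6
      have h2 : (0 : ℂ) • Sw + (0 : ℂ) • Sv + ((1 : ℂ) • Ss + (1 : ℂ) • St) - St = Ss := by
        module
      rwa [h2] at h1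
    have ht0 : t = 0 := by
      by_contra hne
      apply hno
      rw [hSt] at e6
      refine hasPcs_of_pair hZ hpos hs hr e6 ?_ ht2
      intro p q hpq
      have h1 : ww (Om g ℂ) w (p • v + q • t) = 0 := by
        rw [hpq]
        unfold ww
        rw [mulVec_zero, dotProduct_zero]
      rw [ww_add_right, ww_smul_right, ww_smul_right, ht1, mul_zero, add_zero, ← hl] at h1
      have hp0 := (mul_eq_zero.1 h1).resolve_right hl0
      rw [hp0, zero_smul, zero_add] at hpq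
      exact ⟨hp0, (smul_eq_zero.1 hpq).resolve_right hne⟩
    have hs0 : s = 0 := by
      by_contra hne
      apply hno
      rw [hSs] at e7
      refine hasPcs_of_pair hZ hpos hs hr e7 ?_ (by rw [ww_anti hOT, hs1, neg_zero])
      intro p q hpq
      have h1 : ww (Om g ℂ) v (p • s + q • w) = 0 := by
        rw [hpq]
        unfold ww
        rw [mulVec_zero, dotProduct_zero]
      rw [ww_add_right, ww_smul_right, ww_smul_right, hs2, mul_zero, zero_add] at h1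
      have hq0 := (mul_eq_zero.1 h1).resolve_right hvw
      rw [hq0, zero_smul, add_zero] at hpq
      exact ⟨(smul_eq_zero.1 hpq).resolve_right hne, hq0⟩
    exact ⟨⟨a, by rw [hYv, hb0, hs0, zero_smul, add_zero, add_zero]⟩,
      ⟨d, by rw [hYw, hc0, ht0, zero_smul, zero_add, add_zero]⟩⟩
  -- the product is central
  have hcomm : ∀ Y ∈ lieM (DZ Z) ℂ, SS (Om g ℂ) v w * Y = Y * SS (Om g ℂ) v w := by
    intro Y hYm
    obtain ⟨⟨a, ha⟩, d, hd⟩ := key Y hYm
    have h1 := SS_bracket (sp_C hZ _ hYm) v w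
    rw [ha, hd, SS_smul_left, SS_smul_right, ← add_smul] at h1
    have h2 : a + d = 0 := by
      have h3 : ww (Om g ℂ) (Y *ᵥ v) w = -ww (Om g ℂ) v (Y *ᵥ w) := by
        have h4 := hm.sp (Matrix.toLin' Y) (toLin_mem_mq.2 hYm) v w
        rw [Matrix.toLin'_apply, Matrix.toLin'_apply] at h4
        exact h4
      rw [ha, hd, ww_smul_left, ww_smul_right] at h3
      have h4 : (a + d) * ww (Om g ℂ) v w = 0 := by linear_combination h3
      exact (mul_eq_zero.1 h4).resolve_right hvw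
    rw [h2, zero_smul] at h1
    exact (sub_eq_zero.1 h1).symm
  have hmem : SS (Om g ℂ) v w ∈ CC Z :=
    ⟨hcomm, eq_neg_of_add_eq_zero_left (sp_C hZ _ hX), fun C hC => (hC _ hX).symm⟩
  have h0 := CC_zero hZ hpos hr _ hmem
  have h1 : SS (Om g ℂ) v w *ᵥ v = 0 := by rw [h0, zero_mulVec]
  rw [SS_vec, ← hl, ww_self hOT, zero_smul, add_zero] at h1
  have hv0 : v ≠ 0 := by
    rintro rfl
    exact one_ne_zero (hli 1 0 (by simp)).1
  exact (smul_ne_zero hl0 hv0) h1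

/-- **The rank two theorem**: if the centre of the endomorphism algebra is totally real and the
Lie algebra contains a nonzero element of rank at most two then the space decomposes into pieces
with the full symplectic Lie algebra. -/
theorem hasPcs_of_rank (hZ : Zᵀ = Z) (hpos : (imM Z).PosDef) (hs : IsSimpleAV Z)
    (hr : RealCentre Z) {X : Matrix (Fin g ⊕ Fin g) (Fin g ⊕ Fin g) ℂ}
    (hX : X ∈ lieM (DZ Z) ℂ) (hX0 : X ≠ 0) (hrk : X.rank ≤ 2) : HasPcs (DZ Z) := by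
  have hY : IsUnit (imM Z).det := hpos.isUnit.map Matrix.detMonoidHom
  rcases Nat.lt_or_ge X.rank 2 with h | h
  · have h1 : X.rank ≠ 0 := by
      intro h0
      apply hX0
      unfold Matrix.rank at h0
      have h2 := Submodule.finrank_eq_zero.1 h0
      ext i j
      have h3 : X *ᵥ (Pi.single j 1) ∈ LinearMap.range (mulVecLin X) := ⟨_, rfl⟩
      rw [h2, Submodule.mem_bot, mulVec_single_one] at h3
      exact congrFun h3 i
    obtain ⟨v, hv, h2⟩ := sq_of_rank_one hZ hX (by omega)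
    exact hasPcs_of_top (Om_transpose ℂ) (Om_unit ℂ) (sp_C hZ)
      (UU_eq_top hZ hY hs ⟨v, good_of_sq_gen hZ hpos hv h2⟩)
  have hr2 : X.rank = 2 := le_antisymm hrk h
  by_cases hX2 : X * X = 0
  · obtain ⟨v, w, hSS, hli, hvw⟩ := exists_pair hZ hX hX2 hr2
    exact hasPcs_of_pair hZ hpos hs hr (by rw [hSS]; exact hX) hli hvw
  · obtain ⟨G, hG, hXG, hrk⟩ := symm_of_sp (sp_C hZ _ hX)
    obtain ⟨v, w, hGv⟩ := exists_prod hG (hrk.trans hr2)
    have h1 : X = SS (Om g ℂ) v w := by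
      rw [hXG, hGv]
      rfl
    refine hasPcs_of_pair' hZ hpos hs hr (by rw [← h1]; exact hX) ?_
    intro h0
    apply hX2
    have h2 : ww (Om g ℂ) w v = 0 := by rw [ww_anti (Om_transpose ℂ), h0, neg_zero]
    apply mulVec_ext
    intro y
    rw [h1, ← mulVec_mulVec, SS_vec v w y, mulVec_add, mulVec_smul, mulVec_smul, SS_vec, SS_vec,
      ww_self (Om_transpose ℂ), ww_self (Om_transpose ℂ), h0, h2, zero_mulVec]
    simp only [zero_smul, add_zero, smul_zero]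

end Pool.Agent.TH125
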