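import Mathlib
import Pool.Agent.W548.Odd.Hodge
import Pool.Agent.W437.HQ.Endo

/-!
# Nilpotent elements which normalize the Lie algebra
-/

set_option linter.unusedSectionVars false

namespace Pool.Agent.TH125

open Matrix Module Pool.Agent.W548.Odd Pool.Agent.W437.HC Pool.Agent.W437.HD

open scoped ComplexOrder

section gen

variable {B : Type*} [Fintype B] [DecidableEq B]
variable {D : Set (Matrix B B ℂ)} {Om S Si : Matrix B B ℂ}

/-- The adjoint given by `S`. -/
noncomputable def adjM (S Si X : Matrix B B ℂ) : Matrix B B ℂ := Si * Siᴴ * Xᴴ * (Sᴴ * S)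

theorem trace_adjM (H : Herm D Om S Si) (X : Matrix B B ℂ) :
    trace (X * adjM S Si X) = trace ((S * X * Si) * (S * X * Si)ᴴ) := by
  rw [conjTranspose_mul, conjTranspose_mul]
  have e1 : S * X * Si * (Siᴴ * (Xᴴ * Sᴴ)) = S * (X * Si * Siᴴ * Xᴴ * Sᴴ) := by noncomm_ring
  rw [e1, trace_mul_comm S]
  unfold adjM
  simp only [mul_assoc]

theorem eq_zero_of_trace_adjM (H : Herm D Om S Si) {X : Matrix B B ℂ}
    (h : trace (X * adjM S Si X) = 0) : X = 0 := by
  rw [trace_adjM H, trace_mul_conjTranspose_self_eq_zero_iff] at h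
  calc X = (Si * S) * X * (Si * S) := by rw [H.SiS, one_mul, mul_one]
  _ = Si * (S * X * Si) * S := by noncomm_ring
  _ = 0 := by rw [h, mul_zero, zero_mul]

/-- Symmetry of the hermitian form `(X, Y) ↦ tr (X Y†)`. -/
theorem trace_adjM_comm (H : Herm D Om S Si) (X Y : Matrix B B ℂ) :
    trace (X * adjM S Si Y) = star (trace (Y * adjM S Si X)) := by
  have h1 : ∀ X Y : Matrix B B ℂ,
      trace (X * adjM S Si Y) = trace ((S * X * Si) * (S * Y * Si)ᴴ) := by
    intro X Y
    rw [conjTranspose_mul, conjTranspose_mul]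
    have e1 : S * X * Si * (Siᴴ * (Yᴴ * Sᴴ)) = S * (X * Si * Siᴴ * Yᴴ * Sᴴ) := by noncomm_ring
    rw [e1, trace_mul_comm S]
    unfold adjM
    simp only [mul_assoc]
  rw [h1, h1, ← trace_conjTranspose, conjTranspose_mul _ (S * X * Si)ᴴ,
    conjTranspose_conjTranspose]

/-- The orthogonal projection to the Lie algebra for the trace form. -/
theorem exists_proj (H : Herm D Om S Si) (N : Matrix B B ℂ) :
    ∃ N1 ∈ LA D, ∀ Y ∈ LA D, trace ((N - N1) * Y) = 0 := by
  let L := LA D
  let φ : L →ₗ[ℂ] Dual ℂ L :=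
    LinearMap.mk₂ ℂ (fun X Y : L => trace ((X : Matrix B B ℂ) * (Y : Matrix B B ℂ)))
      (fun X X' Y => by simp [add_mul])
      (fun a X Y => by simp)
      (fun X Y Y' => by simp [mul_add])
      (fun a X Y => by simp)
  have hinj : Function.Injective φ := by
    rw [← LinearMap.ker_eq_bot, LinearMap.ker_eq_bot']
    intro X hX
    apply Subtype.ext
    refine H.nondeg X.2 fun Y hY => ?_
    exact congrArg (fun f : Dual ℂ L => f ⟨Y, hY⟩) hX
  have hsurj : Function.Surjective φ :=
    (LinearMap.injective_iff_surjective_of_finrank_eq_finrank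
      (Subspace.dual_finrank_eq (K := ℂ) (V := L)).symm).1 hinj
  let ψ : Dual ℂ L :=
    { toFun := fun Y => trace (N * (Y : Matrix B B ℂ))
      map_add' := fun Y Y' => by simp [mul_add]
      map_smul' := fun a Y => by simp }
  obtain ⟨X, hX⟩ := hsurj ψ
  refine ⟨X, X.2, fun Y hY => ?_⟩
  have h1 : trace ((X : Matrix B B ℂ) * Y) = trace (N * Y) :=
    congrArg (fun f : Dual ℂ L => f ⟨Y, hY⟩) hX
  rw [sub_mul, trace_sub, h1, sub_self]

/-- Elements of the orthogonal complement which normalize the Lie algebra commute with it. -/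
theorem comm_of_orth (H : Herm D Om S Si) {C : Matrix B B ℂ}
    (hC : ∀ Y ∈ LA D, trace (C * Y) = 0) (hn : ∀ X ∈ LA D, C * X - X * C ∈ LA D) :
    InCm D C := by
  intro X hX
  rw [← sub_eq_zero]
  refine H.nondeg (hn X hX) fun Y hY => ?_
  have h1 := hC _ (LA_br hX hY)
  have h2 : trace ((C * X - X * C) * Y) = trace (C * (X * Y - Y * X)) := by
    have e1 : (C * X - X * C) * Y = C * X * Y - X * (C * Y) := by noncomm_ring
    have e2 : C * (X * Y - Y * X) = C * X * Y - C * Y * X := by noncomm_ring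
    rw [e1, e2, trace_sub, trace_sub, trace_mul_comm X (C * Y)]
  rw [h2, h1]

/-- A nilpotent matrix which normalizes the Lie algebra is in the Lie algebra if it commutes with
the adjoint of its component in the orthogonal complement. -/
theorem mem_of_normalizes (H : Herm D Om S Si) {N : Matrix B B ℂ} (hN : IsNilpotent N)
    (hn : ∀ X ∈ LA D, N * X - X * N ∈ LA D)
    (hc : ∀ N1 ∈ LA D, (∀ Y ∈ LA D, trace ((N - N1) * Y) = 0) → InCm D (N - N1) →
      Commute N (adjM S Si (N - N1))) : N ∈ LA D := by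
  obtain ⟨N1, hN1, horth⟩ := exists_proj H N
  have hcm : InCm D (N - N1) := by
    refine comm_of_orth H horth fun X hX => ?_
    have h1 := Submodule.sub_mem _ (hn X hX) (LA_br hN1 hX)
    have h2 : (N - N1) * X - X * (N - N1) = N * X - X * N - (N1 * X - X * N1) := by noncomm_ring
    rw [h2]
    exact h1
  have h1 : trace (N * adjM S Si (N - N1)) = 0 := by
    have h2 : IsNilpotent (N * adjM S Si (N - N1)) :=
      (hc N1 hN1 horth hcm).isNilpotent_mul_right hN
    exact (Matrix.isNilpotent_trace_of_isNilpotent h2).eq_zero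
  have h2 : trace (N1 * adjM S Si (N - N1)) = 0 := by
    rw [trace_adjM_comm H]
    have h3 : trace ((N - N1) * adjM S Si N1) = 0 := horth _ (H.adj N1 hN1)
    rw [h3, star_zero]
  have h3 : N - N1 = 0 := by
    refine eq_zero_of_trace_adjM H ?_
    rw [sub_mul, trace_sub, h1, h2, sub_zero]
  rw [sub_eq_zero] at h3
  rw [h3]
  exact hN1

end gen

end Pool.Agent.TH125
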