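import Mathlib
import Pool.Agent.TH125.Mono

/-!
# Unipotent operators which normalize the Lie algebra of a family of abelian varieties
-/

set_option linter.unusedSectionVars false
set_option linter.unusedVariables false

namespace Pool.Agent.TH125

open Matrix Module Pool.Agent.W548.Odd Pool.Agent.W437.HC Pool.Agent.W437.HD

variable {g : ℕ} {Z : Matrix (Fin g) (Fin g) ℂ} {W : Set (Matrix (Fin g) (Fin g) ℂ)}

/-- The adjoint is given by the complex structure. -/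
theorem hermZ' (hW : IsPer W) (hZW : Z ∈ W) : ∃ S Si, Herm (DZ '' W) (Om g ℂ) S Si ∧
    ∀ X : Matrix (Fin g ⊕ Fin g) (Fin g ⊕ Fin g) ℂ, Xᵀ * Om g ℂ + Om g ℂ * X = 0 →
      adjM S Si X = cm (JR Z) * X.map (starRingEnd ℂ) * cm (JR Z) := by
  obtain ⟨hZ, hpos⟩ := hW Z hZW
  have hu : IsUnit (imM Z).det := hpos.isUnit.map Matrix.detMonoidHom
  have hDm : DZ Z ∈ LA (DZ '' W) := LA_self ⟨Z, hZW, rfl⟩
  obtain ⟨y, hy, hyy⟩ := exists_sqrt (OmJ_posDef hZ hpos)
  rw [star_eq_conjTranspose, conjTranspose_eq_transpose_of_trivial] at hyy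
  obtain ⟨yi, hyyi⟩ : ∃ yi, y * yi = 1 := hy.exists_right_inv
  have hSSi : cm y * cm yi = 1 := by rw [← cm_mul, hyyi, cm_one]
  have hSiS : cm yi * cm y = 1 := mul_eq_one_comm.1 hSSi
  have hDD : ∀ d ∈ DZ '' W, d * d = 1 := by
    rintro _ ⟨Z', hZ', rfl⟩
    exact DZ_sq ((hW Z' hZ').2.isUnit.map Matrix.detMonoidHom)
  have hOS : Om g ℂ * cm (JR Z) = (cm y)ᵀ * cm y := by
    rw [← cm_Om, ← cm_mul, hyy, cm_mul, cm_transpose]
  have hJ2 : cm (JR Z) * cm (JR Z) = -1 := by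
    rw [← cm_mul, JR_sq hu, cm_neg, cm_one]
  have hJ1 : cm (JR Z) = -(Om g ℂ * ((cm y)ᵀ * cm y)) := by
    rw [← hOS, ← mul_assoc, Om_sq, neg_one_mul, neg_neg]
  have hJO : cm (JR Z) = cm yi * (cm yi)ᵀ * (-(Om g ℂ)) := by
    have e1 : ((cm y)ᵀ * cm y) * cm (JR Z) = -Om g ℂ := by
      rw [← hOS, mul_assoc, hJ2, mul_neg_one]
    have e2 : (cm yi)ᵀ * (cm y)ᵀ = 1 := by rw [← transpose_mul, hSSi, transpose_one]
    have e3 : cm yi * (cm yi)ᵀ * (((cm y)ᵀ * cm y) * cm (JR Z)) = cm (JR Z) := by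
      have : cm yi * (cm yi)ᵀ * (((cm y)ᵀ * cm y) * cm (JR Z)) =
          cm yi * (((cm yi)ᵀ * (cm y)ᵀ) * cm y) * cm (JR Z) := by noncomm_ring
      rw [this, e2, one_mul, hSiS, one_mul]
    rw [← e1, e3]
  have key : ∀ X : Matrix (Fin g ⊕ Fin g) (Fin g ⊕ Fin g) ℂ, Xᵀ * Om g ℂ + Om g ℂ * X = 0 →
      adjM (cm y) (cm yi) X = cm (JR Z) * X.map (starRingEnd ℂ) * cm (JR Z) := by
    intro X hX
    obtain ⟨X', hX'⟩ : ∃ X', X' = X.map (starRingEnd ℂ) := ⟨_, rfl⟩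
    have hXH : Xᴴ = X'ᵀ := by
      rw [hX']
      rfl
    have hsp : X'ᵀ * Om g ℂ + Om g ℂ * X' = 0 := by
      have h1 := congrArg (fun M : Matrix (Fin g ⊕ Fin g) (Fin g ⊕ Fin g) ℂ =>
        M.map (starRingEnd ℂ)) hX
      have h2 : (Xᵀ * Om g ℂ + Om g ℂ * X).map (starRingEnd ℂ) =
          (X.map (starRingEnd ℂ))ᵀ * Om g ℂ + Om g ℂ * X.map (starRingEnd ℂ) := by
        rw [Matrix.map_add _ (map_add _), Matrix.map_mul, Matrix.map_mul, Om_aut,
          Matrix.transpose_map]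
      have h3 : (0 : Matrix (Fin g ⊕ Fin g) (Fin g ⊕ Fin g) ℂ).map (starRingEnd ℂ) = 0 :=
        Matrix.map_zero _ (map_zero _)
      change (Xᵀ * Om g ℂ + Om g ℂ * X).map (starRingEnd ℂ) =
        (0 : Matrix (Fin g ⊕ Fin g) (Fin g ⊕ Fin g) ℂ).map (starRingEnd ℂ) at h1
      rw [h2, h3] at h1
      rw [hX']
      exact h1
    have hOX : Om g ℂ * X' = -(X'ᵀ * Om g ℂ) := eq_neg_of_add_eq_zero_right hsp
    unfold adjM
    rw [hXH, cm_conjT, cm_conjT, ← hX']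
    have e1 : cm (JR Z) * X' * cm (JR Z) =
        (cm yi * (cm yi)ᵀ * (-(Om g ℂ))) * X' * (-(Om g ℂ * ((cm y)ᵀ * cm y))) := by
      rw [← hJO, ← hJ1]
    have e2 : (cm yi * (cm yi)ᵀ * (-(Om g ℂ))) * X' * (-(Om g ℂ * ((cm y)ᵀ * cm y))) =
        (cm yi * (cm yi)ᵀ) * (Om g ℂ * X') * (Om g ℂ * ((cm y)ᵀ * cm y)) := by noncomm_ring
    rw [e1, e2, hOX]
    have e3 : (cm yi * (cm yi)ᵀ) * -(X'ᵀ * Om g ℂ) * (Om g ℂ * ((cm y)ᵀ * cm y)) =
        -((cm yi * (cm yi)ᵀ) * X'ᵀ * (Om g ℂ * Om g ℂ) * ((cm y)ᵀ * cm y)) := by noncomm_ring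
    rw [e3, Om_sq]
    noncomm_ring
  refine ⟨cm y, cm yi, ⟨Om_transpose ℂ, Om_sq ℂ, hDD, fun X hX => sp_LA hW hX, hSSi, ?_⟩, key⟩
  intro X hX
  change adjM (cm y) (cm yi) X ∈ _
  rw [key X (sp_LA hW hX)]
  have hX'm : X.map (starRingEnd ℂ) ∈ LA (DZ '' W) := LA_aut (starRingEnd ℂ) hX
  have h1 := LA_invol hX'm hDm (DZ_sq hu)
  have hJD : cm (JR Z) = Complex.I • DZ Z := by
    change _ = Complex.I • ((-Complex.I) • cm (JR Z))
    rw [smul_smul, show Complex.I * -Complex.I = 1 by simp, one_smul]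
  rw [hJD, smul_mul_assoc, smul_mul_assoc, mul_smul_comm, smul_smul, Complex.I_mul_I,
    neg_one_smul]
  exact Submodule.neg_mem _ h1

theorem J_eq_D (Z : Matrix (Fin g) (Fin g) ℂ) : cm (JR Z) = Complex.I • DZ Z := by
  change _ = Complex.I • ((-Complex.I) • cm (JR Z))
  rw [smul_smul, show Complex.I * -Complex.I = 1 by simp, one_smul]

/-- A nilpotent symplectic matrix which normalizes the Lie algebra and whose component `c` in the
orthogonal complement has the property that the matrix commutes with the complex conjugate of `c`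
is in the Lie algebra. -/
theorem mem_of_normalizesZ (hW : IsPer W) (hZW : Z ∈ W)
    {N : Matrix (Fin g ⊕ Fin g) (Fin g ⊕ Fin g) ℂ} (hN : IsNilpotent N)
    (hsp : Nᵀ * Om g ℂ + Om g ℂ * N = 0)
    (hn : ∀ X ∈ LA (DZ '' W), N * X - X * N ∈ LA (DZ '' W))
    (hc : ∀ c, InCm (DZ '' W) c → (∀ Y ∈ LA (DZ '' W), trace (c * Y) = 0) →
      N - c ∈ LA (DZ '' W) → cᵀ * Om g ℂ + Om g ℂ * c = 0 →
      N * c.map (starRingEnd ℂ) = c.map (starRingEnd ℂ) * N) :
    N ∈ LA (DZ '' W) := by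
  obtain ⟨S, Si, H, hadj⟩ := hermZ' hW hZW
  have hY : IsUnit (imM Z).det := (hW Z hZW).2.isUnit.map Matrix.detMonoidHom
  refine mem_of_normalizes H hN hn fun N1 hN1 horth hcm => ?_
  have hspc : (N - N1)ᵀ * Om g ℂ + Om g ℂ * (N - N1) = 0 := by
    rw [transpose_sub, sub_mul, mul_sub, sub_add_sub_comm, hsp, sp_LA hW hN1, sub_zero]
  rw [hadj _ hspc, J_eq_D]
  have h1 := hc _ hcm horth (by rw [sub_sub_cancel]; exact hN1) hspc
  obtain ⟨c, hcdef⟩ : ∃ c, c = (N - N1).map (starRingEnd ℂ) := ⟨_, rfl⟩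
  have hDm : DZ Z ∈ LA (DZ '' W) := LA_self ⟨Z, hZW, rfl⟩
  -- the conjugate commutes with the complex structure
  have h2 : c * DZ Z = DZ Z * c := by
    have h3 := hcm _ (LA_aut (starRingEnd ℂ) hDm)
    have h4 := congrArg (fun M : Matrix (Fin g ⊕ Fin g) (Fin g ⊕ Fin g) ℂ =>
        M.map (starRingEnd ℂ)) h3
    simp only [Matrix.map_mul] at h4
    have h5 : ((DZ Z).map (starRingEnd ℂ)).map (starRingEnd ℂ) = DZ Z := by
      ext i j
      simp
    rw [h5] at h4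
    rw [hcdef]
    exact h4
  rw [← hcdef] at h1 ⊢
  have h3 : Complex.I • DZ Z * c * Complex.I • DZ Z = -c := by
    rw [smul_mul_assoc, smul_mul_assoc, mul_smul_comm, smul_smul, Complex.I_mul_I, ← h2,
      mul_assoc, DZ_sq hY, mul_one, neg_one_smul]
  rw [h3]
  exact (Commute.neg_right h1)

/-- Rational unipotent operators of index two which normalize the Lie algebra. -/
theorem rat_mem_of_normalizes (hW : IsPer W) (hZW : Z ∈ W)
    {N : Matrix (Fin g ⊕ Fin g) (Fin g ⊕ Fin g) ℚ} (hN : IsNilpotent N)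
    (hsp : Nᵀ * Om g ℚ + Om g ℚ * N = 0)
    (hn : ∀ X ∈ LA (DZ '' W), qm N * X - X * qm N ∈ LA (DZ '' W)) : qm N ∈ LA (DZ '' W) := by
  have hspC : (qm N)ᵀ * Om g ℂ + Om g ℂ * qm N = 0 := by
    have h1 : qm (Nᵀ * Om g ℚ + Om g ℚ * N) = qm 0 := congrArg _ hsp
    have h2 : qm (Nᵀ * Om g ℚ + Om g ℚ * N) = qm (Nᵀ * Om g ℚ) + qm (Om g ℚ * N) := by
      ext i j
      simp [qm]
    rw [h2, qm_mul, qm_mul, qm_zero, ← Om_qm] at h1
    exact h1
  refine mem_of_normalizesZ hW hZW ?_ hspC hn fun c hcm horth hNc hcsp => ?_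
  · obtain ⟨k, hk⟩ := hN
    refine ⟨k, ?_⟩
    have h1 : ∀ k : ℕ, qm N ^ k = qm (N ^ k) := by
      intro k
      induction k with
      | zero =>
        ext i j
        simp [qm, Matrix.one_apply, apply_ite]
      | succ k ih => rw [pow_succ, pow_succ, qm_mul, ih]
    rw [h1, hk, qm_zero]
  · -- the component is real
    obtain ⟨S, Si, H, -⟩ := hermZ' hW hZW
    obtain ⟨cb, hcb⟩ : ∃ cb, cb = c.map (starRingEnd ℂ) := ⟨_, rfl⟩
    have h1 : (qm N - c).map (starRingEnd ℂ) = qm N - cb := by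
      rw [hcb, Matrix.map_sub _ (map_sub _), qm_aut]
    have h2 : c - cb ∈ LA (DZ '' W) := by
      have h3 := LA_aut (starRingEnd ℂ) hNc
      rw [h1] at h3
      have h4 := Submodule.sub_mem _ h3 hNc
      have h5 : qm N - cb - (qm N - c) = c - cb := by abel
      rwa [h5] at h4
    have h3 : c - cb = 0 := by
      refine H.nondeg h2 fun Y hY => ?_
      have h4 : trace (cb * Y) = 0 := by
        have h5 := horth _ (LA_aut (starRingEnd ℂ) hY)
        have h6 := congrArg (starRingEnd ℂ) h5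
        rw [map_zero, AddMonoidHom.map_trace, Matrix.map_mul] at h6
        have h7 : (Y.map (starRingEnd ℂ)).map (starRingEnd ℂ) = Y := by
          ext i j
          simp
        rw [h7] at h6
        rw [hcb]
        exact h6
      rw [sub_mul, trace_sub, horth Y hY, h4, sub_zero]
    rw [sub_eq_zero] at h3
    rw [← hcb, ← h3]
    have h4 : (qm N - c) * c = c * (qm N - c) := (hcm _ hNc).symm
    rw [sub_mul, mul_sub] at h4
    exact sub_left_injective h4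

end Pool.Agent.TH125
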