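import Mathlib
import Pool.Agent.W548.Odd.Family
import Pool.Agent.W548.Odd.Eigen
import Pool.Agent.TH125.RankTwo
import Pool.Agent.TH125.RankMap
import Pool.Agent.TH125.Vhc

/-!
# Square-zero elements of given rank in the Lie algebra of a family, very general members
-/

set_option linter.unusedSectionVars false

namespace Pool.Agent.TH125

open Matrix Module Filter Topology Pool.Agent.W437.HC Pool.Agent.W437.HD Pool.Agent.H204R3.CM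
  Pool.Agent.H194R3.CM Pool.Agent.W548.Odd Pool.Agent.W437.HR

variable {g : ℕ}

/-- There is a square-zero element of rank `r`. -/
def RankIn (W : Set (Matrix (Fin g) (Fin g) ℂ)) (r : ℕ) : Prop :=
  ∃ N ∈ LA (DZ '' W), N * N = 0 ∧ N.rank = r

variable {W : Set (Matrix (Fin g) (Fin g) ℂ)}

/-- The criterion for conjugates. -/
theorem rankIn_conj (hW : IsPer W) {Z1 Z2 : Matrix (Fin g) (Fin g) ℂ} (h1 : Z1 ∈ W) (h2 : Z2 ∈ W)
    (σ : ℂ ≃+* ℂ) : RankIn W (((Z2.map (starRingEnd ℂ)).map σ - Z1) *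
      ((Z2.map (starRingEnd ℂ)).map σ - Z2.map σ)⁻¹ * (Z1 - Z2.map σ)).rank := by
  obtain ⟨hZ1, hp1⟩ := hW _ h1
  obtain ⟨hZ2, hp2⟩ := hW _ h2
  have hY1 : IsUnit (imM Z1).det := hp1.isUnit.map Matrix.detMonoidHom
  have hY2 : IsUnit (imM Z2).det := hp2.isUnit.map Matrix.detMonoidHom
  have hu : IsUnit (((Z2.map (starRingEnd ℂ)).map σ - Z2.map σ)).det := by
    have h3 := isUnit_bar_sub hY2
    have h4 : ((Z2.map (starRingEnd ℂ)).map σ - Z2.map σ).det =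
        σ (Z2.map (starRingEnd ℂ) - Z2).det := by
      have h5 := (σ : ℂ →+* ℂ).map_det (Z2.map (starRingEnd ℂ) - Z2)
      change σ _ = _ at h5
      rw [h5]
      congr 1
      ext i j
      simp
    rw [h4]
    exact h3.map σ
  have hLM : ∀ M : Matrix (Fin g) (Fin g) ℂ, (LM M).map (σ : ℂ →+* ℂ) = LM (M.map σ) := by
    intro M
    ext i j
    rcases i with i | i
    · simp [LM]
    · simp [LM, Matrix.one_apply, apply_ite]
  have hQ1 : (DZ Z2).map σ * LM (Z2.map σ) = -LM (Z2.map σ) := by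
    have h3 : (DZ Z2 * LM Z2).map (σ : ℂ →+* ℂ) = (-LM Z2).map (σ : ℂ →+* ℂ) := by
      rw [DZ_LM hY2]
    rw [Matrix.map_mul, hLM] at h3
    have h4 : (-LM Z2).map (σ : ℂ →+* ℂ) = -(LM Z2).map (σ : ℂ →+* ℂ) := by
      ext i j
      simp
    rw [h4, hLM] at h3
    exact h3
  have hQ2 : (DZ Z2).map σ * LM ((Z2.map (starRingEnd ℂ)).map σ) =
      LM ((Z2.map (starRingEnd ℂ)).map σ) := by
    have h3 : (DZ Z2 * LM (Z2.map (starRingEnd ℂ))).map (σ : ℂ →+* ℂ) =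
        (LM (Z2.map (starRingEnd ℂ))).map (σ : ℂ →+* ℂ) := by
      rw [DZ_LM_bar hY2]
    rw [Matrix.map_mul, hLM] at h3
    exact h3
  have hj := jump_eq (DZ_LM hY1) (DZ_LM_bar hY1) hQ1 hQ2 (isUnit_bar_sub hY1) hu
  have hr := rank_LM_RM (isUnit_bar_sub hY1) (((Z2.map (starRingEnd ℂ)).map σ - Z1) *
      ((Z2.map (starRingEnd ℂ)).map σ - Z2.map σ)⁻¹ * (Z1 - Z2.map σ)) (c := 8) (by norm_num)
  rw [← hj] at hr
  refine ⟨_, jump_mem (LA_self ⟨Z1, h1, rfl⟩) (LA_aut (σ : ℂ →+* ℂ) (LA_self ⟨Z2, h2, rfl⟩))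
    (DZ_sq hY1), hr.2, ?_⟩
  have h3 : (1 + DZ Z1) * (DZ Z2).map σ * (1 - DZ Z1) =
      (1 + DZ Z1) * (DZ Z2).map (σ : ℂ →+* ℂ) * (1 - DZ Z1) := rfl
  rw [← h3, hr.1]

/-- The criterion for two points. -/
theorem rankIn_points (hW : IsPer W) {Z1 Z2 : Matrix (Fin g) (Fin g) ℂ} (h1 : Z1 ∈ W)
    (h2 : Z2 ∈ W) : RankIn W (Z1 - Z2).rank := by
  obtain ⟨hZ1, hp1⟩ := hW _ h1
  obtain ⟨hZ2, hp2⟩ := hW _ h2
  have hY2 : IsUnit (imM Z2).det := hp2.isUnit.map Matrix.detMonoidHom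
  have h := rankIn_conj hW h1 h2 (RingEquiv.refl ℂ)
  have e1 : ∀ M : Matrix (Fin g) (Fin g) ℂ, M.map (RingEquiv.refl ℂ) = M := by
    intro M
    ext i j
    rfl
  rw [e1, e1, rank_mul_eq_right_of_isUnit_det] at h
  · exact h
  · rw [det_mul]
    exact (isUnit_sub_bar hZ1 hZ2 hp1 hp2).mul
      (Matrix.isUnit_nonsing_inv_det _ (isUnit_bar_sub hY2))

/-- The criterion for the derivative. -/
theorem rankIn_deriv {U : Set ℂ} (hU : IsOpen U) {Z : ℂ → Matrix (Fin g) (Fin g) ℂ}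
    (hW : IsPer (Z '' U)) {t₀ : ℂ} (ht₀ : t₀ ∈ U) {Z' : Matrix (Fin g) (Fin g) ℂ}
    (hd : ∀ i j, HasDerivAt (fun t => Z t i j) (Z' i j) t₀) :
    RankIn (Z '' U) Z'.rank := by
  have hY : ∀ t ∈ U, IsUnit (imM (Z t)).det := fun t ht =>
    (hW _ ⟨t, ht, rfl⟩).2.isUnit.map Matrix.detMonoidHom
  set Z0 := Z t₀ with hZ0
  set Zb := Z0.map (starRingEnd ℂ) with hZb
  have hu0 : IsUnit (Zb - Z0).det := isUnit_bar_sub (hY t₀ ht₀)
  -- the limit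
  set F : Matrix (Fin g) (Fin g) ℂ → Matrix (Fin g ⊕ Fin g) (Fin g ⊕ Fin g) ℂ :=
    fun A => (8 : ℂ) • (LM Zb * ((Zb - Z0)⁻¹ * A) * RM Z0 Zb) with hF
  have hFs : ∀ (c : ℂ) A, c • F A = F (c • A) := by
    intro c A
    simp only [hF]
    rw [smul_comm, Matrix.mul_smul, Matrix.mul_smul, Matrix.smul_mul]
  have hmem : ∀ᶠ t in 𝓝[≠] t₀, F (((Z t).map (starRingEnd ℂ) - Z0) *
      ((Z t).map (starRingEnd ℂ) - Z t)⁻¹ * ((t - t₀)⁻¹ • (Z0 - Z t))) ∈ LA (DZ '' (Z '' U)) := by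
    have h1 : ∀ᶠ t in 𝓝[≠] t₀, t ∈ U := nhdsWithin_le_nhds (hU.mem_nhds ht₀)
    filter_upwards [h1] with t ht
    have hj := jump_eq (DZ_LM (hY t₀ ht₀)) (DZ_LM_bar (hY t₀ ht₀)) (DZ_LM (hY t ht))
      (DZ_LM_bar (hY t ht)) (isUnit_bar_sub (hY t₀ ht₀)) (isUnit_bar_sub (hY t ht))
    have hm1 : DZ (Z t₀) ∈ LA (DZ '' (Z '' U)) := LA_self ⟨Z t₀, ⟨t₀, ht₀, rfl⟩, rfl⟩
    have hm2 : DZ (Z t) ∈ LA (DZ '' (Z '' U)) := LA_self ⟨Z t, ⟨t, ht, rfl⟩, rfl⟩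
    have h2 := jump_mem hm1 hm2 (DZ_sq (hY t₀ ht₀))
    rw [hj] at h2
    have h3 := Submodule.smul_mem _ (t - t₀)⁻¹ h2
    have h4 := hFs (t - t₀)⁻¹ (((Z t).map (starRingEnd ℂ) - Z0) *
      ((Z t).map (starRingEnd ℂ) - Z t)⁻¹ * (Z0 - Z t))
    rw [Matrix.mul_smul, ← h4]
    exact h3
  -- continuity
  have hZc : Tendsto Z (𝓝[≠] t₀) (𝓝 Z0) := by
    refine tendsto_pi_nhds.2 fun i => tendsto_pi_nhds.2 fun j => ?_
    exact (hd i j).continuousAt.tendsto.mono_left nhdsWithin_le_nhds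
  have hZbc : Tendsto (fun t => (Z t).map (starRingEnd ℂ)) (𝓝[≠] t₀) (𝓝 Zb) := by
    refine tendsto_pi_nhds.2 fun i => tendsto_pi_nhds.2 fun j => ?_
    have h1 : Tendsto (fun t => Z t i j) (𝓝[≠] t₀) (𝓝 (Z0 i j)) :=
      (hd i j).continuousAt.tendsto.mono_left nhdsWithin_le_nhds
    exact (Complex.continuous_conj.tendsto _).comp h1
  have hinv : Tendsto (fun t => ((Z t).map (starRingEnd ℂ) - Z t)⁻¹) (𝓝[≠] t₀)
      (𝓝 (Zb - Z0)⁻¹) := by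
    have h1 : ContinuousAt Inv.inv (Zb - Z0) := by
      apply continuousAt_matrix_inv
      rw [Ring.inverse_eq_inv']
      exact continuousAt_inv₀ hu0.ne_zero
    exact h1.tendsto.comp (hZbc.sub hZc)
  have hdq : Tendsto (fun t => (t - t₀)⁻¹ • (Z0 - Z t)) (𝓝[≠] t₀) (𝓝 (-Z')) := by
    refine tendsto_pi_nhds.2 fun i => tendsto_pi_nhds.2 fun j => ?_
    have h1 := (hasDerivAt_iff_tendsto_slope.1 (hd i j)).neg
    refine h1.congr fun t => ?_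
    simp only [slope, vsub_eq_sub, smul_eq_mul, Matrix.smul_apply, Matrix.sub_apply, hZ0]
    ring
  have hlim : Tendsto (fun t => F (((Z t).map (starRingEnd ℂ) - Z0) *
      ((Z t).map (starRingEnd ℂ) - Z t)⁻¹ * ((t - t₀)⁻¹ • (Z0 - Z t)))) (𝓝[≠] t₀)
      (𝓝 (F ((Zb - Z0) * (Zb - Z0)⁻¹ * (-Z')))) := by
    have hFc : Continuous F := by
      simp only [hF]
      fun_prop
    refine (hFc.tendsto _).comp ?_
    exact ((hZbc.sub_const Z0).mul hinv).mul hdq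
  have hcl : IsClosed ((LA (DZ '' (Z '' U)) : Submodule ℂ _) : Set
      (Matrix (Fin g ⊕ Fin g) (Fin g ⊕ Fin g) ℂ)) := Submodule.closed_of_finiteDimensional _
  have hN := hcl.mem_of_tendsto hlim hmem
  rw [mul_nonsing_inv _ hu0, one_mul] at hN
  have hr := rank_LM_RM hu0 (-Z') (c := 8) (by norm_num)
  refine ⟨_, hN, hr.2, ?_⟩
  have h5 : (F (-Z')).rank = (-Z').rank := hr.1
  have h6 : (-Z').rank = Z'.rank := by
    rw [← rk_ph, ← rk_ph, map_neg, rk_neg]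
  rw [h5, h6]

/-- The criterion for monodromy operators. -/
theorem rankIn_mono {U : Set ℂ} (hne : U.Nonempty) {Z : ℂ → Matrix (Fin g) (Fin g) ℂ}
    (hW : IsPer (Z '' U)) {γ : Matrix (Fin g ⊕ Fin g) (Fin g ⊕ Fin g) ℚ}
    (hγ : IsMonodromy U Z γ) (h2 : (γ - 1) * (γ - 1) = 0) : RankIn (Z '' U) (γ - 1).rank := by
  refine ⟨_, mono_mem hW hne hγ h2, ?_, ?_⟩
  · rw [← qm_mul, h2, qm_zero]
  · exact rank_map_hom (Rat.castHom ℂ) (γ - 1)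

/-- The centre of the algebra of the common endomorphisms is totally real. -/
def FamilyReal (U : Set ℂ) (Z : ℂ → Matrix (Fin g) (Fin g) ℂ) : Prop :=
  ∀ φ : Matrix (Fin g ⊕ Fin g) (Fin g ⊕ Fin g) ℚ,
    (∀ t ∈ U, ∃ M, Pool.Agent.W437.HQ.IsEndo (Z t) φ M) →
    (∀ ψ : Matrix (Fin g ⊕ Fin g) (Fin g ⊕ Fin g) ℚ,
      (∀ t ∈ U, ∃ M, Pool.Agent.W437.HQ.IsEndo (Z t) ψ M) → φ * ψ = ψ * φ) →
    φᵀ * Om g ℚ = Om g ℚ * φ

/-- The very general members. -/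
theorem family_pcs {U : Set ℂ} (hU : IsOpen U) (hc : IsPreconnected U)
    (Z : ℂ → Matrix (Fin g) (Fin g) ℂ) (hol : ∀ i j, DifferentiableOn ℂ (fun t => Z t i j) U)
    (hW : IsPer (Z '' U)) (hs : ∃ s ∈ U, IsSimpleAV (Z s)) {r : ℕ} (hr : RankIn (Z '' U) r)
    (h : Odd r ∨ (r = 2 ∧ FamilyReal U Z)) :
    ∃ E : Set ℂ, E.Countable ∧ ∀ t ∈ U, t ∉ E → HasPcs (DZ (Z t)) := by
  obtain ⟨s, hs, hsimple⟩ := hs
  have hY : ∀ t ∈ U, IsUnit (imM (Z t)).det := fun t ht =>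
    (hW _ ⟨t, ht, rfl⟩).2.isUnit.map Matrix.detMonoidHom
  obtain ⟨E, hE, hEt⟩ := exists_exceptional hU hc Z hol hY
  refine ⟨E, hE, fun t ht htE => ?_⟩
  obtain ⟨hZt, hpos⟩ := hW _ ⟨t, ht, rfl⟩
  have h1 : LA (DZ '' (Z '' U)) ≤ lieM (DZ (Z t)) ℂ := by
    refine LA_le_lieM ?_
    rintro _ ⟨_, ⟨s', hs', rfl⟩, rfl⟩
    exact hEt t ht htE s' hs'
  have h2 : IsSimpleAV (Z t) := simple_of_mem hZt hpos (hW _ ⟨s, hs, rfl⟩).2
    (hEt t ht htE s hs) hsimple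
  obtain ⟨N, hN, hN2, hNr⟩ := hr
  rcases h with hodd | ⟨h2r, hreal⟩
  · obtain ⟨e, he, he1⟩ := exists_rank_one hW ⟨s, hs, rfl⟩ hsimple (ε := 1) (N := N)
      (fun X _ => by rw [one_mul, mul_one]) (one_mul 1)
      (by rw [Matrix.transpose_one, one_mul, mul_one]) (fun c _ => by rw [one_mul, mul_one])
      hN hN2 (by rw [one_mul, hNr]; exact hodd)
    obtain ⟨v, hv, h3⟩ := sq_of_rank_one hZt (h1 he) he1
    exact hasPcs_of_top (Om_transpose ℂ) (Om_unit ℂ) (sp_C hZt)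
      (UU_eq_top hZt (hY t ht) h2 ⟨v, good_of_sq_gen hZt hpos hv h3⟩)
  · have hN0 : N ≠ 0 := by
      rintro rfl
      rw [rank_zero] at hNr
      omega
    refine hasPcs_of_rank hZt hpos h2 ?_ (h1 hN) hN0 (by omega)
    intro φ M hφ hcomm
    have key : ∀ (ψ : Matrix (Fin g ⊕ Fin g) (Fin g ⊕ Fin g) ℚ) (N' : Matrix (Fin g) (Fin g) ℂ),
        Pool.Agent.W437.HQ.IsEndo (Z t) ψ N' →
        ∀ s' ∈ U, ∃ M', Pool.Agent.W437.HQ.IsEndo (Z s') ψ M' := by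
      intro ψ N' hψ s' hs'
      have h3 := Pool.Agent.W437.HQ.comm_lie hZt (Pool.Agent.W437.HQ.endo_comm (hY t ht) hψ)
        (hEt t ht htE s' hs')
      exact ⟨_, Pool.Agent.W437.HQ.endo_of_comm (hY s' hs') h3⟩
    refine hreal φ (key φ M hφ) fun ψ hψ => ?_
    obtain ⟨N', hN'⟩ := hψ t ht
    exact hcomm ψ N' hN'

end Pool.Agent.TH125
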