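import Mathlib
import Pool.Agent.TH125.RankIn

/-!
# Families of abelian varieties with small or odd ranks
-/

namespace Pool.Agent.TH125.Small

open Matrix Pool.Agent.H204R3.CM Pool.Agent.H194R3.CM Pool.Agent.W437.HC Pool.Agent.W437.HD
  Pool.Agent.W437.HP

/-- `γ` is a monodromy operator of the family `Z` over `U`: a rational symplectic matrix which maps
the homology of each member `t` to the homology of another member `t'` and comes from a complex
linear map `C` of the tangent spaces (`perOne Z` is the inclusion `(a, b) ↦ a + Z b` of the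
rational homology in the tangent space). -/
def IsMonodromy {g : ℕ} (U : Set ℂ) (Z : ℂ → Matrix (Fin g) (Fin g) ℂ)
    (γ : Matrix (Fin g ⊕ Fin g) (Fin g ⊕ Fin g) ℚ) : Prop :=
  γ.transpose * fromBlocks 0 1 (-1) 0 * γ = fromBlocks 0 1 (-1) 0 ∧
    ∀ t ∈ U, ∃ t' ∈ U, ∃ C : Matrix (Fin g) (Fin g) ℂ,
      ∀ w, perOne (Z t') (γ.mulVec w) = C.mulVec (perOne (Z t) w)

/-- The rational matrix `φ` is an endomorphism of all members of the family. -/
def IsEndomorphism {g : ℕ} (U : Set ℂ) (Z : ℂ → Matrix (Fin g) (Fin g) ℂ)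
    (φ : Matrix (Fin g ⊕ Fin g) (Fin g ⊕ Fin g) ℚ) : Prop :=
  ∀ t ∈ U, ∃ M : Matrix (Fin g) (Fin g) ℂ, ∀ w, perOne (Z t) (φ.mulVec w) = M.mulVec (perOne (Z t) w)

/-- The centre of the endomorphism algebra of the family is totally real: an endomorphism of the
family which commutes with all endomorphisms of the family is symmetric for the principal
polarization. -/
def HasRealCentre {g : ℕ} (U : Set ℂ) (Z : ℂ → Matrix (Fin g) (Fin g) ℂ) : Prop :=
  ∀ φ, IsEndomorphism U Z φ → (∀ ψ, IsEndomorphism U Z ψ → φ * ψ = ψ * φ) →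
    φ.transpose * fromBlocks 0 1 (-1) 0 = fromBlocks 0 1 (-1) 0 * φ

/-- `r` is the rank of `γ - 1` for a monodromy operator with `(γ - 1) ^ 2 = 0`, or of the derivative
of the period matrix at a point, or of the difference of two period matrices. -/
def IsFamilyRank {g : ℕ} (U : Set ℂ) (Z : ℂ → Matrix (Fin g) (Fin g) ℂ) (r : ℕ) : Prop :=
  (∃ γ, IsMonodromy U Z γ ∧ (γ - 1) * (γ - 1) = 0 ∧ (γ - 1).rank = r) ∨
    (∃ s ∈ U, (Matrix.of fun i j => deriv (fun t => Z t i j) s).rank = r) ∨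
    ∃ s ∈ U, ∃ t ∈ U, (Z s - Z t).rank = r

/-- `Z` is a holomorphic family of period matrices over `U` with a simple member, and one of its
ranks is odd, or is two and the centre of the endomorphism algebra is totally real. -/
def IsSmallFamily {g : ℕ} (U : Set ℂ) (Z : ℂ → Matrix (Fin g) (Fin g) ℂ) : Prop :=
  (∀ i j, DifferentiableOn ℂ (fun t => Z t i j) U) ∧
  (∀ t ∈ U, (Z t).transpose = Z t ∧ ((Z t).map Complex.im).PosDef) ∧
  (∃ s ∈ U, IsSimpleAV (Z s)) ∧
  ∃ r, IsFamilyRank U Z r ∧ (Odd r ∨ (r = 2 ∧ HasRealCentre U Z))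

/-- The very general members of a small family. -/
theorem exists_pcs {U : Set ℂ} (hU : IsOpen U) (hc : IsPreconnected U) {g : ℕ}
    {Z : ℂ → Matrix (Fin g) (Fin g) ℂ} (h : IsSmallFamily U Z) :
    ∃ E : Set ℂ, E.Countable ∧ ∀ t ∈ U, t ∉ E → Pool.Agent.W437.HR.HasPcs (DZ (Z t)) := by
  obtain ⟨hol, hper, hs, r, hr, hodd⟩ := h
  have hW : Pool.Agent.W548.Odd.IsPer (Z '' U) := by
    rintro _ ⟨t, ht, rfl⟩
    exact hper t ht
  have hne : U.Nonempty := ⟨hs.choose, hs.choose_spec.1⟩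
  have hr' : Pool.Agent.TH125.RankIn (Z '' U) r := by
    rcases hr with ⟨γ, hγ, h2, rfl⟩ | ⟨s, hs, rfl⟩ | ⟨s, hs, t, ht, rfl⟩
    · exact Pool.Agent.TH125.rankIn_mono hne hW hγ h2
    · refine Pool.Agent.TH125.rankIn_deriv hU hW hs fun k l => ?_
      exact ((hol k l).differentiableAt (hU.mem_nhds hs)).hasDerivAt
    · exact Pool.Agent.TH125.rankIn_points hW ⟨s, hs, rfl⟩ ⟨t, ht, rfl⟩
  exact Pool.Agent.TH125.family_pcs hU hc Z hol hW hs hr' hodd

end Pool.Agent.TH125.Small
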