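import Mathlib
import Pool.Agent.TH125.Vhc

/-!
# The variational Hodge conjecture for products of families of odd type
-/

set_option linter.unusedSectionVars false
set_option linter.unusedVariables false

namespace Pool.Agent.TH125

open Matrix Module Pool.Agent.W548.Odd Pool.Agent.W437.HC Pool.Agent.W437.HD Pool.Agent.W437.HP
  Pool.Agent.H204R3.CM Pool.Agent.H194R3.CM Pool.Agent.H204R3.SP

section closure

variable {W T : Type*} [AddCommGroup W] [Module ℚ W] [AddCommGroup T] [Module ℂ T]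
  {per : W →+ T} {κ : Type*}

theorem isHodge_zero : IsHodge per (0 : W [⋀^κ]→ₗ[ℚ] ℚ) :=
  ⟨0, fun v => by simp, fun z hz u => rfl⟩

theorem isHodge_add {f f' : W [⋀^κ]→ₗ[ℚ] ℚ} (h : IsHodge per f) (h' : IsHodge per f') :
    IsHodge per (f + f') := by
  obtain ⟨ψ, h1, h2⟩ := h
  obtain ⟨ψ', h1', h2'⟩ := h'
  refine ⟨ψ + ψ', fun v => ?_, fun z hz u => ?_⟩
  · rw [_root_.add_apply, h1, h1', AlternatingMap.add_apply, Rat.cast_add]
  · rw [_root_.add_apply, _root_.add_apply, h2 z hz, h2' z hz]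

theorem isHodge_smul (a : ℚ) {f : W [⋀^κ]→ₗ[ℚ] ℚ} (h : IsHodge per f) :
    IsHodge per (a • f) := by
  obtain ⟨ψ, h1, h2⟩ := h
  refine ⟨(a : ℝ) • ψ, fun v => ?_, fun z hz u => ?_⟩
  · rw [_root_.smul_apply, h1, AlternatingMap.smul_apply, smul_eq_mul, smul_eq_mul,
      Rat.cast_mul]
  · rw [_root_.smul_apply, _root_.smul_apply, h2 z hz]

theorem isHodge_sum {ι : Type*} (s : Finset ι) {f : ι → W [⋀^κ]→ₗ[ℚ] ℚ}
    (h : ∀ i ∈ s, IsHodge per (f i)) : IsHodge per (∑ i ∈ s, f i) := by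
  classical
  induction s using Finset.induction_on with
  | empty => simpa using isHodge_zero
  | insert a s ha ih =>
    rw [Finset.sum_insert ha]
    exact isHodge_add (h a (Finset.mem_insert_self a s))
      (ih fun i hi => h i (Finset.mem_insert_of_mem hi))

end closure

/-- A form of degree two whose coefficients are killed by the Hodge operator is a Hodge class. -/
theorem isHodge_two {g : ℕ} {Z : Matrix (Fin g) (Fin g) ℂ} (hY : IsUnit (imM Z).det) {n : ℕ}
    {f : (Fin n → Fin g ⊕ Fin g → ℚ) [⋀^Fin 2]→ₗ[ℚ] ℚ}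
    (hf : ∀ t : Fin 2 → Fin n, IsH (DZ Z) (coe f t)) : IsHodge (perPow Z n) f := by
  have h1 : f.toMultilinearMap = ∑ t : Fin 2 → Fin n, bil2 (bF (coe f t) (t 0) (t 1)) := by
    refine MultilinearMap.ext fun v => ?_
    have h2 := congrFun (sum_pF f) v
    rw [Finset.sum_apply] at h2
    change f v = _
    rw [h2, MultilinearMap.sum_apply]
    refine Finset.sum_congr rfl fun t _ => ?_
    rw [pF_apply, bil2_apply, bF_apply]
    have h3 : ∀ c : (Fin 2 → Fin g ⊕ Fin g) → ℚ, ∑ I, c I * ∏ k, v k (t k) (I k) =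
        ∑ i, ∑ j, c ![i, j] * (v 0 (t 0) i * v 1 (t 1) j) := by
      intro c
      rw [← Fintype.sum_prod_type' (f := fun i j => c ![i, j] * (v 0 (t 0) i * v 1 (t 1) j))]
      refine Fintype.sum_equiv (finTwoArrowEquiv _) _ _ fun I => ?_
      rw [Fin.prod_univ_two]
      change _ = c ![I 0, I 1] * (v 0 (t 0) (I 0) * v 1 (t 1) (I 1))
      congr 2
      funext l
      fin_cases l <;> rfl
    rw [h3, dotProduct]
    refine Finset.sum_congr rfl fun i _ => ?_
    rw [mulVec, dotProduct, Finset.mul_sum]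
    refine Finset.sum_congr rfl fun j _ => ?_
    rw [Matrix.of_apply]
    ring
  have h2 : (2 : ℚ) • f = ∑ t : Fin 2 → Fin n,
      MultilinearMap.alternatization (bil2 (bF (coe f t) (t 0) (t 1))) := by
    rw [← map_sum, ← h1]
    have h3 := AlternatingMap.coe_alternatization f
    change MultilinearMap.alternatization f.toMultilinearMap = _ at h3
    rw [h3]
    ext v
    simp
  have h3 : f = (2 : ℚ)⁻¹ • (2 : ℚ) • f := by
    rw [smul_smul, inv_mul_cancel₀ two_ne_zero, one_smul]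
  rw [h3, h2]
  exact isHodge_smul _ (isHodge_sum _ fun t _ => isHodge_bF hY (hf t) _ _)

section prod

variable {ι : Type} [Fintype ι] [DecidableEq ι] {g : ι → ℕ}

/-- Transport of Hodge classes of degree two. -/
theorem isHodge_transport {Z Z' : ∀ i, Matrix (Fin (g i)) (Fin (g i)) ℂ}
    (hpos : ∀ i, (imM (Z i)).PosDef) (hpos' : ∀ i, (imM (Z' i)).PosDef)
    (hm : DZ (bigD ℂ Z') ∈ lieM (DZ (bigD ℂ Z)) ℂ) {n : ℕ} (c : Fin n → ι)
    {f : (∀ j, Fin (g (c j)) ⊕ Fin (g (c j)) → ℚ) [⋀^Fin 2]→ₗ[ℚ] ℚ}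
    (hf : IsHodge (perFam Z c) f) : IsHodge (perFam Z' c) f := by
  have hY : IsUnit (imM (bigD ℂ Z)).det :=
    (imM_bigD_posDef Z hpos).isUnit.map Matrix.detMonoidHom
  have hY' : IsUnit (imM (bigD ℂ Z')).det :=
    (imM_bigD_posDef Z' hpos').isUnit.map Matrix.detMonoidHom
  have h1 : IsHodge (perPow (bigD ℂ Z) n) (f.compLinearMap (prH g c)) :=
    Pool.Agent.W437.HK.isHodge_pullback (Φ := prT g c) (pr_per Z c) hf
  have h2 : IsHodge (perPow (bigD ℂ Z') n) (f.compLinearMap (prH g c)) := by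
    refine isHodge_two hY' fun t => ?_
    exact lieM_kills _ hm (isH_coe _ hY h1 t)
  have h3 := Pool.Agent.W437.HK.isHodge_pullback (Φ := incT g c) (inc_per Z' c) h2
  have h4 : (f.compLinearMap (prH g c)).compLinearMap (incH g c) = f := by
    ext v
    change f (fun l => prH g c (incH g c (v l))) = f v
    congr 1
    funext l j
    change pm g ℚ (c j) *ᵥ ((pm g ℚ (c j))ᵀ *ᵥ (v l j)) = v l j
    rw [mulVec_mulVec, pm_same, one_mulVec]
  rwa [h4] at h3

end prod

end Pool.Agent.TH125
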